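import Mathlib
import Pool.Agent.N824.CT.Fib

/-!
# Isotopies of diffeomorphisms of closed manifolds from coarse isotopies

Let `N` be a closed manifold of dimension `n`, smoothly embedded in `ℝᵏ` by `ι`; in the application
`N` is the complex projective plane. Let `X` be a manifold of dimension `m` with a smooth submersion
`π : X → B`; in the application `X = N × ℝ` and `π` is the projection to `B = ℝ`. Let `Z` be a
closed subset of `X` and `F₀ : X → N` a smooth map.

The theorem characterizes when there is a smooth map `F : X → N`, equal to `F₀` outside a compact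
set disjoint from `Z`, the differential of which is injective on the kernel of `dπ` (the restriction
of `F` to each fibre of `π` is an immersion): this is the case if and only if there are, for
arbitrarily small scales `r` (all `r` in a set `S` accumulating at `0`), coarse maps
`f r : X → N` of this kind, which are equal to `F₀` on an open set `U` containing `Z`, with compact
complement. The maps `f r` need not be continuous, not even along the base, they are unrelated for
different `r`, and nothing is assumed about `f r` at scales different from `r`. Near a point `x`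
outside `U` there is a smooth parametrization `A` of `X`, `κ`-bi-Lipschitz for some function
`d(x, y)`, such that for all `p` near `0` the map `ι ∘ f r ∘ A` is, on the ball of radius `κ² r`
about `p`, *in the mean* within `δ r` of an affine map with linear part `L`, where
`(1 + ‖L‖) r ≤ δ τ(r)` and `(‖L‖ + δ) r ≤ τ(r)` with `τ(r) → 0`, and `C κ^(2m+2) δ ‖v‖ < ‖L v‖` for
all `v ≠ 0` with `dπ (dA_p v) = 0`. Here `L`, `δ` depend on `p` and `r` in any way and `C` is any
sufficiently large constant (it depends on `m` and `ι`). It is not assumed that `L` is close to a map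
to a tangent space of `N`.

For `X = N × ℝ` with `N` closed, connected and simply connected and `F₀ (x, s) = x` for
`s ≤ -1/2`, `F₀ (x, s) = φ x` for `s ≥ 1/2`, `Z = {|s| ≥ 1}`, the members of `F` are local
diffeomorphisms of `N`, hence diffeomorphisms, and `F` is an isotopy from the identity to `φ`.
-/

set_option autoImplicit false

open Set Filter Topology Metric MeasureTheory Function
open scoped Manifold ContDiff

noncomputable section

namespace Pool.Agent.Results.MP_28b04d_gt.CoarseIsotopiesClosed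

/-- `ℝᵐ` -/
abbrev R (m : ℕ) := EuclideanSpace ℝ (Fin m)

/-- Lebesgue measure on `ℝᵐ` -/
def vol (m : ℕ) : Measure (R m) := volume

/-! In the following definitions `V = ℝᵐ` is the model space of `X`, `T = ℝⁿ` the model space of
`N`, `Y = ℝᵇ` the model space of `B`, and `W = ℝᵏ`. -/

section

variable {V W : Type} [NormedAddCommGroup V] [NormedSpace ℝ V] [NormedAddCommGroup W]
  [NormedSpace ℝ W] {X : Type} [TopologicalSpace X] [ChartedSpace V X]

/-- `A` is a smooth parametrization near `x = A 0`, which is `κ`-bi-Lipschitz for `d` on the ball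
of radius `ρ`. -/
def Param (d : X → X → ℝ) (A : V → X) (κ ρ : ℝ) (x : X) : Prop :=
  A 0 = x ∧ IsLocalDiffeomorphAt 𝓘(ℝ, V) 𝓘(ℝ, V) ∞ A 0 ∧ 1 ≤ κ ∧ 0 < ρ ∧
    ∀ p q : V, ‖p‖ < ρ → ‖q‖ < ρ →
      d (A p) (A q) ≤ κ * ‖p - q‖ ∧ ‖p - q‖ ≤ κ * d (A p) (A q)

/-- `h` is integrable on the ball of radius `b` about `p` and its distance to an affine map with
linear part `L` has integral at most `c` over this ball. -/
def AffineInMean [MeasurableSpace V] (μ : Measure V) (h : V → W) (p : V) (b c : ℝ)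
    (L : V →L[ℝ] W) : Prop :=
  IntegrableOn h (closedBall p b) μ ∧ ∃ w : W,
    ∫ q in closedBall p b, ‖h q - w - L (q - p)‖ ∂μ ≤ c

variable (Y : Type) [NormedAddCommGroup Y] [NormedSpace ℝ Y] {B : Type} [TopologicalSpace B]
  [ChartedSpace Y B]

/-- `L` is injective, with the margin `b`, on the vectors `v` which are vertical at `A p`: the
image of `v` under the differential of `A` at `p` is in the kernel of the differential of `π` -/
def VerticalMargin (π : X → B) (A : V → X) (p : V) (b : ℝ) (L : V →L[ℝ] W) : Prop :=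
  ∀ v : V, v ≠ 0 →
    mfderiv 𝓘(ℝ, V) 𝓘(ℝ, Y) π (A p) (mfderiv 𝓘(ℝ, V) 𝓘(ℝ, V) A p v) = 0 → b * ‖v‖ < ‖L v‖

/-- the maps `f r` are coarse fibrewise immersions at `x`, each one at its scale `r ∈ S`;
`m` is the dimension of `X` -/
def CoarseAt [MeasurableSpace V] (m : ℕ) (μ : Measure V) (C : ℝ) (π : X → B) (d : X → X → ℝ)
    (S : Set ℝ) (f : ℝ → X → W) (x : X) : Prop :=
  ∃ (A : V → X) (κ ρ : ℝ) (τ : ℝ → ℝ), Param d A κ ρ x ∧ Tendsto τ (𝓝[>] 0) (𝓝 0) ∧
    ∀ p, ‖p‖ < ρ → ∀ r ∈ S, 0 < r → r < ρ → ∃ (L : V →L[ℝ] W) (δ : ℝ), 0 ≤ δ ∧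
      (1 + ‖L‖) * r ≤ δ * τ r ∧ (‖L‖ + δ) * r ≤ τ r ∧
      AffineInMean μ (fun z => f r (A z)) p (κ ^ 2 * r) (δ * r ^ (m + 1)) L ∧
      VerticalMargin Y π A p (C * κ ^ (2 * m + 2) * δ) L

variable {N : Type} [TopologicalSpace N] (V) (T : Type) [NormedAddCommGroup T] [NormedSpace ℝ T]
  [ChartedSpace T N]

/-- smooth maps -/
def Smooth (F : X → N) : Prop := ContMDiff 𝓘(ℝ, V) 𝓘(ℝ, T) ∞ F

/-- smooth submersions -/
def Submersion (π : X → B) : Prop :=
  ContMDiff 𝓘(ℝ, V) 𝓘(ℝ, Y) ∞ π ∧ ∀ x, Surjective (mfderiv 𝓘(ℝ, V) 𝓘(ℝ, Y) π x)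

/-- the differential of `F` at `x` is injective on the kernel of the differential of `π` -/
def FibrewiseImmersiveAt (π : X → B) (F : X → N) (x : X) : Prop :=
  ∀ v : TangentSpace 𝓘(ℝ, V) x, mfderiv 𝓘(ℝ, V) 𝓘(ℝ, Y) π x v = 0 →
    mfderiv 𝓘(ℝ, V) 𝓘(ℝ, T) F x v = 0 → v = 0

/-- `ι` is a smooth injective immersion (its differential at `y` is injective, in a smooth
parametrization `A` near `y = A 0`). -/
def SmoothEmb (ι : N → W) : Prop :=
  ContMDiff 𝓘(ℝ, T) 𝓘(ℝ, W) ∞ ι ∧ Injective ι ∧ ∀ y, ∃ A : T → N, A 0 = y ∧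
    IsLocalDiffeomorphAt 𝓘(ℝ, T) 𝓘(ℝ, T) ∞ A 0 ∧
    ∀ v : T, fderiv ℝ (fun z => ι (A z)) 0 v = 0 → v = 0

/-- there is a smooth map to `N` equal to `F₀` outside a compact set disjoint from `Z` and
immersive on the fibres of `π` -/
def Extends (π : X → B) (Z : Set X) (F₀ : X → N) : Prop :=
  ∃ (F : X → N) (K : Set X), Smooth V T F ∧ IsCompact K ∧ Disjoint K Z ∧
    (∀ x, x ∉ K → F x = F₀ x) ∧ ∀ x, FibrewiseImmersiveAt V Y T π F x

/-- there are, for scales `r` accumulating at `0`, maps `f r` to `N` equal to `F₀` on an open set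
`U` containing `Z`, with compact complement, where `F₀` is immersive on the fibres, and coarsely
immersive on the fibres outside `U` (as maps to `W`, by `ι`) -/
def ExtendsCoarsely [MeasurableSpace V] (m : ℕ) (μ : Measure V) (C : ℝ) (ι : N → W) (π : X → B)
    (Z : Set X) (F₀ : X → N) : Prop :=
  ∃ (U : Set X) (d : X → X → ℝ) (S : Set ℝ) (f : ℝ → X → N), IsOpen U ∧ Z ⊆ U ∧ IsCompact Uᶜ ∧
    (∀ x ∈ U, FibrewiseImmersiveAt V Y T π F₀ x) ∧ (0 : ℝ) ∈ closure (S ∩ Ioi 0) ∧
    (∀ r ∈ S, ∀ x ∈ U, f r x = F₀ x) ∧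
    ∀ x, x ∉ U → CoarseAt Y m μ C π d S (fun r x => ι (f r x)) x

end

theorem result (m n k b : ℕ) (N : Type) [TopologicalSpace N] [CompactSpace N] [T2Space N]
    [Nonempty N] [ChartedSpace (R n) N] [IsManifold 𝓘(ℝ, R n) ∞ N] (ι : N → R k)
    (_ : SmoothEmb (R n) ι) :
    ∃ C₀ : ℝ, ∀ C : ℝ, C₀ ≤ C → ∀ (X : Type) [TopologicalSpace X] [T2Space X]
      [SecondCountableTopology X] [ChartedSpace (R m) X] [IsManifold 𝓘(ℝ, R m) ∞ X] (B : Type)
      [TopologicalSpace B] [ChartedSpace (R b) B] [IsManifold 𝓘(ℝ, R b) ∞ B] (π : X → B)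
      (_ : Submersion (R m) (R b) π) (Z : Set X) (_ : IsClosed Z) (F₀ : X → N)
      (_ : Smooth (R m) (R n) F₀),
      Extends (R m) (R b) (R n) π Z F₀ ↔
        ExtendsCoarsely (R m) (R b) (R n) m (vol m) C ι π Z F₀ := by
  rename_i hι
  obtain ⟨C₀, hC₀⟩ := Pool.Agent.N824.CT.mainVert m n hι.1 hι.2.1 hι.2.2
  refine ⟨C₀, fun C hC X _ _ _ _ _ B _ _ _ π hπ Z hZ F₀ hF₀ => ?_⟩
  refine (hC₀ C hC X (R b) B π hπ.1 hπ.2 Z hZ F₀ hF₀).trans ⟨?_, ?_⟩
  · rintro ⟨U, d, S, f, h1, h2, h2', h3, h4, h5, h6⟩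
    refine ⟨U, d, S, f, h1, h2, h2', h3, h4, h5, fun x hx => ?_⟩
    obtain ⟨A, κ, ρ, τ, k1, k2, k3, k4, k5, k6, k7⟩ := h6 x hx
    exact ⟨A, κ, ρ, τ, ⟨k1, k2, k3, k4, k6⟩, k5, k7⟩
  · rintro ⟨U, d, S, f, h1, h2, h2', h3, h4, h5, h6⟩
    refine ⟨U, d, S, f, h1, h2, h2', h3, h4, h5, fun x hx => ?_⟩
    obtain ⟨A, κ, ρ, τ, ⟨k1, k2, k3, k4, k6⟩, k5, k7⟩ := h6 x hx
    exact ⟨A, κ, ρ, τ, k1, k2, k3, k4, k5, k6, k7⟩

end Pool.Agent.Results.MP_28b04d_gt.CoarseIsotopiesClosed
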